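import Pool.Agent.Helper8.SPV.Stmts
import Pool.Agent.Helper8.SPV.PLib

/-! # Module A4I: the derivation `d/dU` at the infinite places -/

set_option autoImplicit false

namespace Pool.Agent.Helper8.SPV

open IntermediateField (adjoin)

theorem A4I_int {K R : Type} [CommRing R] {k : Type} [Field k] [Field K] [Algebra k K]
    [Algebra R K] {p : Pl k K} (L : p.Laws) (y : K) (m : ℤ) (hm : m ≤ 0) (P : Polynomial R)
    (hP : P.Monic) (h0 : Polynomial.eval₂ (algebraMap R K) y P = 0)
    (hc : ∀ i < P.natDegree, p.Ge m (algebraMap R K (P.coeff i))) : p.Ge m y := by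
  by_cases hy : y = 0
  · exact Or.inl hy
  rw [L.ge_iff _ _ hy]
  by_contra hlt
  rw [not_le] at hlt
  rw [Polynomial.eval₂_eq_sum_range, Finset.sum_range_succ, hP.coeff_natDegree, map_one,
    one_mul] at h0
  have h1 : p.Ge (P.natDegree * p.ord y + 1)
      (∑ i ∈ Finset.range P.natDegree, algebraMap R K (P.coeff i) * y ^ i) := by
    refine L.ge_sum _ _ fun i hi => ?_
    have hi' := Finset.mem_range.1 hi
    have h2 := L.ge_mul (hc i hi') (g := y ^ i) (m := i * p.ord y)
      (Or.inr (by rw [L.ord_pow]))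
    refine L.ge_mono h2 ?_
    obtain ⟨j, hj⟩ : ∃ j : ℕ, P.natDegree = i + (j + 1) := ⟨P.natDegree - i - 1, by omega⟩
    rw [hj]
    push_cast
    have h3 : (j : ℤ) * p.ord y ≤ 0 :=
      mul_nonpos_of_nonneg_of_nonpos (by positivity) (by omega)
    nlinarith
  have h2 : y ^ P.natDegree =
      -(∑ i ∈ Finset.range P.natDegree, algebraMap R K (P.coeff i) * y ^ i) := by
    linear_combination h0
  have h3 := L.ge_neg h1
  rw [← h2, L.ge_iff _ _ (pow_ne_zero _ hy), L.ord_pow] at h3
  omega

theorem st_A4I (hPL1 : ST_PL1) (hEINF : ST_EINF) (hDER1 : ST_DER1) : ST_A4I := by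
  intro k0 k K _ _ _ _ _ _ _ _ _ _ b T W d hBD hFF hE hT
  have hb : b 9 ≠ 0 := hBD.indep.ne_zero 9
  have e2 : (2 : K) ≠ 0 := by
    have h2 : (2 : K) = algebraMap k K 2 := (map_ofNat _ 2).symm
    rw [h2]; exact (map_ne_zero _).2 (by norm_num)
  have hW : W ≠ 0 := by
    rintro rfl
    apply hT
    refine ⟨Polynomial.X ^ 3 + 1, ?_, ?_⟩
    · intro h
      have := congrArg (Polynomial.eval 0) h
      simp at this
    · simp only [map_add, map_pow, Polynomial.aeval_X, map_one]
      linear_combination -hE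
  have hδ : d.δ ≠ 0 := by
    intro h
    have := d.δT
    rw [h, Derivation.zero_apply] at this
    exact mul_ne_zero e2 hW this.symm
  obtain ⟨-, -, hd3, hd4⟩ := hDER1 k K hFF
  refine ⟨fun p hp m f hf => ?_, fun y hy => ?_⟩
  · have L := hPL1 k K hFF p
    obtain ⟨e, he, oT, oW, os, -, hsU, hb9⟩ := hEINF k K b T W d.δ hFF hE hT d.δT d.δW p hp
    obtain ⟨hM, -, oQd⟩ := hb9 hb
    have hQd : Qd b T ≠ 0 := by
      intro h
      rw [h, Pl.ord_zero] at oQd
      omega
    have hg0 : gg b T W ≠ 0 := mul_ne_zero (mul_ne_zero e2 hW) hQd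
    have hog : p.ord (gg b T W) = -19 * e := by
      unfold gg
      have h2 : p.ord (2 : K) = 0 := by
        have := L.ord_const 2
        rwa [map_ofNat] at this
      rw [L.ord_mul _ _ (mul_ne_zero e2 hW) hQd, L.ord_mul _ _ e2 hW, h2, oW, oQd]
      ring
    have hrr : p.rr d.δ = e - 1 := by
      have h1 := (hd4 d.δ hδ p (T / W) (by rw [os]; omega)).2
      rw [((L.U_iff _).1 hsU).2, os] at h1
      omega
    rcases hf with rfl | hf
    · rw [map_zero, mul_zero]; exact L.ge_zero _
    · by_cases hf0 : f = 0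
      · rw [hf0, map_zero, mul_zero]; exact L.ge_zero _
      have h1 := hd3 d.δ hδ p f
      have h2 := L.ge_mul (n := 19 * e) (f := (gg b T W)⁻¹)
        (Or.inr (by rw [L.ord_inv, hog]; omega)) h1
      refine L.ge_mono h2 ?_
      rw [hrr, oT]
      omega
  · have key : ∀ a ∈ Algebra.adjoin k0 {Qf b T}, ∃ c : ℕ, ∀ p : Pl k K, T ∉ p.O →
        p.Ge (9 * c * p.ord T) a := by
      intro a ha
      have hT0 : ∀ p : Pl k K, T ∉ p.O → p.ord T ≤ 0 := by
        intro p hp
        obtain ⟨e, he, oT, -⟩ := hEINF k K b T W d.δ hFF hE hT d.δT d.δW p hp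
        omega
      induction ha using Algebra.adjoin_induction with
      | mem x hx =>
        rw [Set.mem_singleton_iff] at hx
        subst hx
        refine ⟨1, fun p hp => Or.inr ?_⟩
        obtain ⟨e, he, oT, oW, os, -, hsU, hb9⟩ := hEINF k K b T W d.δ hFF hE hT d.δT d.δW p hp
        obtain ⟨hM, oQ, oQd⟩ := hb9 hb
        rw [oQ, oT]
        push_cast
        omega
      | algebraMap r =>
        refine ⟨0, fun p hp => ?_⟩
        have L := hPL1 k K hFF p
        rw [IsScalarTower.algebraMap_apply k0 k K]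
        have := L.ge_const (algebraMap k0 k r)
        simpa using this
      | add x y _ _ hx hy =>
        obtain ⟨c1, h1⟩ := hx
        obtain ⟨c2, h2⟩ := hy
        refine ⟨max c1 c2, fun p hp => ?_⟩
        have L := hPL1 k K hFF p
        have h3 := hT0 p hp
        refine L.ge_add (L.ge_mono (h1 p hp) ?_) (L.ge_mono (h2 p hp) ?_)
        · have : (c1 : ℤ) ≤ ((max c1 c2 : ℕ) : ℤ) := by exact_mod_cast le_max_left _ _
          nlinarith
        · have : (c2 : ℤ) ≤ ((max c1 c2 : ℕ) : ℤ) := by exact_mod_cast le_max_right _ _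
          nlinarith
      | mul x y _ _ hx hy =>
        obtain ⟨c1, h1⟩ := hx
        obtain ⟨c2, h2⟩ := hy
        refine ⟨c1 + c2, fun p hp => ?_⟩
        have L := hPL1 k K hFF p
        have h3 := L.ge_mul (h1 p hp) (h2 p hp)
        rw [show (9 : ℤ) * ((c1 + c2 : ℕ) : ℤ) * p.ord T =
          9 * c1 * p.ord T + 9 * c2 * p.ord T by push_cast; ring]
        exact h3
    obtain ⟨P, hP, h0⟩ := hy
    choose c hc using key
    refine ⟨(Finset.range P.natDegree).sup fun i =>
      c ((P.coeff i : Algebra.adjoin k0 {Qf b T}) : K) (P.coeff i).2, fun p hp => ?_⟩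
    have L := hPL1 k K hFF p
    obtain ⟨e, he, oT, -⟩ := hEINF k K b T W d.δ hFF hE hT d.δT d.δW p hp
    have hTn : p.ord T ≤ 0 := by omega
    refine A4I_int (R := Algebra.adjoin k0 {Qf b T}) L y _ ?_ P hP h0 fun i hi => ?_
    · exact mul_nonpos_of_nonneg_of_nonpos (by positivity) hTn
    · refine L.ge_mono (hc _ (P.coeff i).2 p hp) ?_
      have h5 : c ((P.coeff i : Algebra.adjoin k0 {Qf b T}) : K) (P.coeff i).2 ≤
          (Finset.range P.natDegree).sup fun i =>
            c ((P.coeff i : Algebra.adjoin k0 {Qf b T}) : K) (P.coeff i).2 :=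
        Finset.le_sup (f := fun i => c ((P.coeff i : Algebra.adjoin k0 {Qf b T}) : K)
          (P.coeff i).2) (Finset.mem_range.2 hi)
      have h6 : (c ((P.coeff i : Algebra.adjoin k0 {Qf b T}) : K) (P.coeff i).2 : ℤ) ≤
          (((Finset.range P.natDegree).sup fun i =>
            c ((P.coeff i : Algebra.adjoin k0 {Qf b T}) : K) (P.coeff i).2 : ℕ) : ℤ) := by
        exact_mod_cast h5
      nlinarith

end Pool.Agent.Helper8.SPV
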