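import Pool.Agent.Helper8.SPV.Stmts
import Pool.Agent.Helper8.SPV.PLib

/-! # Modules Z1 and Z2: sums over all places -/

set_option autoImplicit false

namespace Pool.Agent.Helper8.SPV

theorem Z1_sum {ι : Type} (f g h : ι → ℤ) (a b c : ℤ) (hf : {i | f i ≠ 0}.Finite)
    (hg : {i | g i ≠ 0}.Finite) (hh : {i | h i ≠ 0}.Finite)
    (H : ∀ i, a * h i ≤ b * f i + c * g i) :
    a * ∑ᶠ i, h i ≤ b * ∑ᶠ i, f i + c * ∑ᶠ i, g i := by
  classical
  set S := hf.toFinset ∪ hg.toFinset ∪ hh.toFinset with hS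
  rw [finsum_eq_sum_of_support_subset (s := S) f ?_, finsum_eq_sum_of_support_subset (s := S) g ?_,
    finsum_eq_sum_of_support_subset (s := S) h ?_, Finset.mul_sum, Finset.mul_sum, Finset.mul_sum,
    ← Finset.sum_add_distrib]
  · exact Finset.sum_le_sum fun i _ => H i
  · intro i hi
    simp only [hS, Finset.coe_union, Set.Finite.coe_toFinset]
    exact Or.inr hi
  · intro i hi
    simp only [hS, Finset.coe_union, Set.Finite.coe_toFinset]
    exact Or.inl (Or.inr hi)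
  · intro i hi
    simp only [hS, Finset.coe_union, Set.Finite.coe_toFinset]
    exact Or.inl (Or.inl hi)

theorem Z1_aux {k0 k K : Type} [Field k0] [Field k] [IsAlgClosed k] [CharZero k]
    [Field K] [Algebra k0 k] [Algebra k K] [Algebra k0 K] [IsScalarTower k0 k K] {b : Fin 10 → k}
    {T W X Y : K} (hPL1 : ST_PL1) (hPL2 : ST_PL2) (hPL3 : ST_PL3) (hPL7 : ST_PL7)
    (hCORR : ST_CORR) (hEINF : ST_EINF)
    (d : Ders k0 b T W) (hFF : IsFF k K) (hPt : Pt b T W X Y) (hT : Transcendental k T) (A : K)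
    (hA : A ≠ 0) (m : ℕ) (hF : ∀ p : Pl k K, T ∈ p.O → (d.δ p.z)⁻¹ * A ∈ p.O)
    (hI : ∀ p : Pl k K, T ∉ p.O → (d.δ p.z)⁻¹ * ((T / W)⁻¹ ^ m * A) ∈ p.O) :
    m * Pl.poles (k := k) T ≤ 2 * Pl.kap d.δ := by
  have hT0 : T ≠ 0 := by
    rintro rfl
    exact hT (isAlgebraic_zero)
  have hδ : d.δ ≠ 0 := by
    -- at any place, `δ z ≠ 0`
    intro h
    by_contra _
    have h1 := d.δT
    have h2 := d.δW
    rw [h, Derivation.zero_apply] at h2
    have h3 : (3 : K) ≠ 0 := by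
      have h2 : (3 : K) = algebraMap k K 3 := (map_ofNat _ 3).symm
      rw [h2]; exact (map_ne_zero _).2 (by norm_num)
    exact mul_ne_zero h3 (pow_ne_zero 2 hT0) h2.symm
  have s1 := hPL2 k K hFF A hA
  have s2 := hPL7 k K hFF d.δ hδ
  have s3 : {p : Pl k K | max 0 (-p.ord T) ≠ 0}.Finite := by
    refine (hPL2 k K hFF T hT0).subset fun p hp => ?_
    intro h
    apply hp
    rw [h]
    rfl
  have key := Z1_sum (fun p : Pl k K => p.ord A) (fun p : Pl k K => p.rr d.δ)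
    (fun p : Pl k K => max 0 (-p.ord T)) m 2 2 s1 s2 s3 (fun p => by
      have L := hPL1 k K hFF p
      obtain ⟨hz0, -, -, -, -⟩ := hCORR k0 k K b T W d hFF hPt.e1 hT p
      have hrr : p.ord (d.δ p.z)⁻¹ = p.rr d.δ := by
        rw [L.ord_inv]; rfl
      by_cases hp : T ∈ p.O
      · have h1 := hF p hp
        rw [L.mem_iff _ (mul_ne_zero (inv_ne_zero hz0) hA),
          L.ord_mul _ _ (inv_ne_zero hz0) hA, hrr] at h1
        have h2 := (L.mem_iff _ hT0).1 hp
        have h3 : max 0 (-p.ord T) = 0 := max_eq_left (by omega)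
        simp only [h3, mul_zero]
        omega
      · have h1 := hI p hp
        obtain ⟨e, he, oT, oW, os, -⟩ := hEINF k K b T W d.δ hFF hPt.e1 hT d.δT d.δW p hp
        have hs0 : T / W ≠ 0 := by
          intro h
          rw [h, Pl.ord_zero] at os
          omega
        have hsm : (T / W)⁻¹ ^ m ≠ 0 := pow_ne_zero _ (inv_ne_zero hs0)
        rw [L.mem_iff _ (mul_ne_zero (inv_ne_zero hz0) (mul_ne_zero hsm hA)),
          L.ord_mul _ _ (inv_ne_zero hz0) (mul_ne_zero hsm hA), L.ord_mul _ _ hsm hA, hrr,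
          L.ord_pow, L.ord_inv, os] at h1
        have h3 : max 0 (-p.ord T) = 2 * e := by
          rw [oT]
          have : -(-2 * e) = 2 * e := by ring
          rw [this]
          exact max_eq_right (by omega)
        simp only [h3]
        nlinarith)
  have h3 := hPL3 k K hFF A hA
  rw [h3, mul_zero, zero_add] at key
  exact key

theorem st_Z1 (hPL1 : ST_PL1) (hPL2 : ST_PL2) (hPL3 : ST_PL3) (hPL7 : ST_PL7) (hZ1F : ST_Z1F)
    (hZ1I : ST_Z1I) (hCORR : ST_CORR) (hEINF : ST_EINF) : ST_Z1 := by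
  intro k0 k K _ _ _ _ _ _ _ _ _ _ b T W X Y d hBD hFF hPt hT hlt j
  by_contra hA
  have h1 := Z1_aux hPL1 hPL2 hPL3 hPL7 hCORR hEINF d hFF hPt hT (zeta d X Y j) hA 1
    (fun p hp => hZ1F k0 k K b T W X Y d hBD hFF hPt hT p hp j)
    (fun p hp => by
      rw [pow_one]
      exact hZ1I k0 k K b T W X Y d hBD hFF hPt hT p hp j)
  push_cast at h1
  omega

theorem st_Z2 (hPL1 : ST_PL1) (hPL2 : ST_PL2) (hPL3 : ST_PL3) (hPL7 : ST_PL7) (hZ2F : ST_Z2F)
    (hZ2I : ST_Z2I) (hCORR : ST_CORR) (hEINF : ST_EINF) : ST_Z2 := by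
  intro k0 k K _ _ _ _ _ _ _ _ _ _ b T W X Y d hBD hFF hPt hT hlt hz
  by_contra hA
  have h1 := Z1_aux hPL1 hPL2 hPL3 hPL7 hCORR hEINF d hFF hPt hT (psi d X Y) hA 2
    (fun p hp => hZ2F k0 k K b T W X Y d hBD hFF hPt hT p hp)
    (fun p hp => hZ2I k0 k K b T W X Y d hBD hFF hPt hT hz p hp)
  have h2 : 0 ≤ Pl.kap d.δ := by
    unfold Pl.kap
    exact finsum_nonneg fun p => (hCORR k0 k K b T W d hFF hPt.e1 hT p).2.2.1
  push_cast at h1
  omega

end Pool.Agent.Helper8.SPV
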