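import Pool.Agent.Helper8.SPV.Stmts
import Pool.Agent.Helper8.SPV.PLib

/-! # Modules Z1I and Z2I: local bounds at the infinite places -/

set_option autoImplicit false

namespace Pool.Agent.Helper8.SPV

/-- the two partial derivatives of the transformed equation do not both vanish at infinity -/
theorem Z1I_alt {k K : Type} [Field k] [CharZero k] [Field K] [Algebra k K] {p : Pl k K}
    (L : p.Laws) {s X Y U : K} {c : k} (hs : p.Ge 1 s) (hc : c ≠ 0)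
    (hU : p.M (s ^ 18 * U - algebraMap k K c))
    (hE : (s ^ 9 * Y) ^ 2 = (s ^ 6 * X) ^ 3 + s ^ 12 * (s ^ 6 * X) + s ^ 18 * U)
    (hX : s ^ 6 * X ∈ p.O) :
    (s ^ 9 * Y ≠ 0 ∧ (s ^ 9 * Y)⁻¹ ∈ p.O) ∨
      (3 * (s ^ 6 * X) ^ 2 + s ^ 12 ≠ 0 ∧ (3 * (s ^ 6 * X) ^ 2 + s ^ 12)⁻¹ ∈ p.O) := by
  by_contra hcon
  rw [not_or] at hcon
  obtain ⟨h1, h2⟩ := hcon
  set A := s ^ 6 * X with hA
  set B := s ^ 9 * Y with hB
  have hs0 : p.Ge 0 s := L.ge_mono hs (by norm_num)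
  have hs12 : p.Ge 1 (s ^ 12) := by
    have h3 : ∀ n : ℕ, p.Ge 0 (s ^ n) := by
      intro n
      rw [← L.mem_iff_ge]
      exact pow_mem ((L.mem_iff_ge _).2 hs0) n
    have := L.ge_mul (h3 11) hs
    rw [← pow_succ] at this
    exact this
  have hA0 : p.Ge 0 A := (L.mem_iff_ge _).1 hX
  have hU0 : p.Ge 0 (s ^ 18 * U) := by
    have h3 := L.ge_add (L.ge_mono ((L.M_iff_ge _).1 hU) (by norm_num : (0:ℤ) ≤ 1))
      (L.ge_const c)
    rwa [sub_add_cancel] at h3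
  have hB2 : p.Ge 0 (B ^ 2) := by
    rw [hE, ← L.mem_iff_ge]
    exact add_mem (add_mem (pow_mem hX 3) (mul_mem ((L.mem_iff_ge _).2
      (L.ge_mono hs12 (by norm_num))) hX)) ((L.mem_iff_ge _).2 hU0)
  have hB0 : p.Ge 0 B := by
    by_cases hz : B = 0
    · exact Or.inl hz
    · rw [L.ge_iff _ _ hz]
      rw [L.ge_iff _ _ (pow_ne_zero 2 hz), L.ord_pow] at hB2
      push_cast at hB2
      omega
  have hB1 : p.Ge 1 B := by
    rw [← L.M_iff_ge]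
    refine ⟨(L.mem_iff_ge _).2 hB0, ?_⟩
    by_cases hz : B = 0
    · exact Or.inl hz
    · exact Or.inr fun h => h1 ⟨hz, h⟩
  have hC0 : 3 * A ^ 2 + s ^ 12 ∈ p.O := by
    refine add_mem (mul_mem ?_ (pow_mem hX 2)) ((L.mem_iff_ge _).2 (L.ge_mono hs12 (by norm_num)))
    have := p.mem 3
    rwa [map_ofNat] at this
  have hC1 : p.Ge 1 (3 * A ^ 2 + s ^ 12) := by
    rw [← L.M_iff_ge]
    refine ⟨hC0, ?_⟩
    by_cases hz : 3 * A ^ 2 + s ^ 12 = 0
    · exact Or.inl hz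
    · exact Or.inr fun h => h2 ⟨hz, h⟩
  have hA2 : p.Ge 1 (3 * A ^ 2) := by
    have := L.ge_sub hC1 hs12
    rwa [add_sub_cancel_right] at this
  have hA1 : p.Ge 1 A := by
    by_cases hz : A = 0
    · exact Or.inl hz
    · rw [L.ge_iff _ _ hz]
      have h3 : (3 : K) = algebraMap k K 3 := (map_ofNat _ 3).symm
      have h30 : (3 : k) ≠ 0 := by norm_num
      rw [h3, L.ge_iff _ _ (mul_ne_zero ((map_ne_zero _).2 h30) (pow_ne_zero 2 hz)),
        L.ord_const_mul _ h30, L.ord_pow] at hA2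
      push_cast at hA2
      omega
  have h4 : p.Ge 1 (s ^ 18 * U) := by
    have e : s ^ 18 * U = B * B - (A * (A * A) + s ^ 12 * A) := by
      linear_combination -hE
    rw [e]
    refine L.ge_sub ?_ (L.ge_add ?_ ?_)
    · have := L.ge_mul hB1 hB0
      simpa using this
    · have := L.ge_mul hA1 (L.ge_mul hA0 hA0)
      simpa using this
    · have := L.ge_mul hs12 hA0
      simpa using this
  have h5 : p.Ge 1 (algebraMap k K c) := by
    have := L.ge_sub h4 ((L.M_iff_ge _).1 hU)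
    rwa [sub_sub_cancel] at this
  rw [L.ge_iff _ _ ((map_ne_zero _).2 hc), L.ord_const] at h5
  omega

theorem Z1I_pt {k K : Type} [Field k] [Field K] [Algebra k K] {b : Fin 10 → k}
    {T W X Y : K} (h : Pt b T W X Y) (s : K) :
    (s ^ 9 * Y) ^ 2 = (s ^ 6 * X) ^ 3 + s ^ 12 * (s ^ 6 * X) + s ^ 18 * Qf b T := by
  have := h.e2
  linear_combination s ^ 18 * this

theorem Z1I_inv {k K : Type} [Field k] [CharZero k] [Field K] [Algebra k K] (p : Pl k K) :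
    (2 : K) ≠ 0 ∧ (3 : K) ≠ 0 ∧ (2 : K)⁻¹ ∈ p.O ∧ (3 : K)⁻¹ ∈ p.O := by
  have h2 : (2 : K) = algebraMap k K 2 := (map_ofNat _ 2).symm
  have h3 : (3 : K) = algebraMap k K 3 := (map_ofNat _ 3).symm
  have h20 : (2 : k) ≠ 0 := by norm_num
  have h30 : (3 : k) ≠ 0 := by norm_num
  refine ⟨?_, ?_, ?_, ?_⟩
  · rw [h2]; exact (map_ne_zero _).2 h20
  · rw [h3]; exact (map_ne_zero _).2 h30
  · rw [h2, ← map_inv₀]; exact p.mem _
  · rw [h3, ← map_inv₀]; exact p.mem _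

theorem st_Z1I (hPL1 : ST_PL1) (hLOC : ST_LOC) (hID : ST_ID) (hCORR : ST_CORR)
    (hEINF : ST_EINF) (hTR : ST_TR) : ST_Z1I := by
  intro k0 k K _ _ _ _ _ _ _ _ _ _ b T W X Y d hBD hFF hPt hT p hp j
  have L := hPL1 k K hFF p
  obtain ⟨-, hW, -, -, hz, -, -⟩ := hID k0 k K b T W X Y d hPt hT (hTR k0 k K b hBD T hT)
  obtain ⟨hz0, hz1, -, hz3, hz4⟩ := hCORR k0 k K b T W d hFF hPt.e1 hT p
  obtain ⟨e, he, oT, oW, os, -, -, hb9⟩ := hEINF k K b T W d.δ hFF hPt.e1 hT d.δT d.δW p hp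
  have hb : b 9 ≠ 0 := hBD.indep.ne_zero 9
  obtain ⟨hM, -, -⟩ := hb9 hb
  obtain ⟨e2, e3, i2, i3⟩ := Z1I_inv p
  have hT0 : T ≠ 0 := by rintro rfl; exact hp p.O.zero_mem
  set s := T / W with hs
  have hs0 : s ≠ 0 := div_ne_zero hT0 hW
  have hsO : s ∈ p.O := (L.mem_iff _ hs0).2 (by rw [os]; omega)
  have hs2T : s ^ 2 * T ∈ p.O := by
    rw [L.mem_iff _ (mul_ne_zero (pow_ne_zero 2 hs0) hT0), L.ord_mul _ _ (pow_ne_zero 2 hs0) hT0,
      L.ord_pow, os, oT]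
    push_cast
    omega
  obtain ⟨hzX, hzY⟩ := hz j
  obtain ⟨hj0, hj⟩ := hz4 j.castSucc
  obtain ⟨hj0', hj'⟩ := hz4 j.succ
  have hDs : ∀ i, d.D i s = 0 := by
    intro i
    rw [hs, Derivation.leibniz_div, d.DT, d.DW]
    simp
  set D : Derivation ℤ K K := s ^ 2 • (T • (d.D j.castSucc).restrictScalars ℤ -
    (d.D j.succ).restrictScalars ℤ) with hD
  have hDf : ∀ f, D f = s ^ 2 * (T * d.D j.castSucc f - d.D j.succ f) := by
    intro f
    rw [hD]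
    simp [smul_eq_mul]
  set δ : Derivation ℤ K K := d.δ.restrictScalars ℤ with hδ
  have hδf : ∀ f, δ f = d.δ f := fun f => rfl
  have hDpow : ∀ (n : ℕ) (f : K), D (s ^ n * f) = s ^ n * D f := by
    intro n f
    rw [Derivation.leibniz, Derivation.leibniz_pow, hDf s, hDs, hDs]
    simp
  refine hLOC K p.O D δ
    (-(s ^ 2 * T * (d.D j.castSucc p.z / d.δ p.z) - s ^ 2 * (d.D j.succ p.z / d.δ p.z)))
    (d.δ p.z)⁻¹ (s ^ 12) (s ^ 18 * Qf b T) 0 (s⁻¹ * zeta d X Y j) (s ^ 6 * X) (s ^ 9 * Y)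
    e2 e3 i2 i3 ?_ hz1 (pow_mem hsO 12) ?_ p.O.zero_mem ?_ ?_ (Z1I_pt hPt s) ?_ ?_ ?_
  · exact neg_mem (sub_mem (mul_mem hs2T hj0) (mul_mem (pow_mem hsO 2) hj0'))
  · have h3 := L.ge_add (L.ge_mono ((L.M_iff_ge _).1 hM) (by norm_num : (0:ℤ) ≤ 1))
      (L.ge_const (b 9))
    rw [sub_add_cancel] at h3
    exact (L.mem_iff_ge _).2 h3
  · intro f hf
    rw [hDf, hδf]
    have e : s ^ 2 * (T * d.D j.castSucc f - d.D j.succ f) +
        -(s ^ 2 * T * (d.D j.castSucc p.z / d.δ p.z) - s ^ 2 * (d.D j.succ p.z / d.δ p.z)) *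
          d.δ f = s ^ 2 * T * (d.D j.castSucc f - d.D j.castSucc p.z / d.δ p.z * d.δ f) -
          s ^ 2 * (d.D j.succ f - d.D j.succ p.z / d.δ p.z * d.δ f) := by ring
    rw [e]
    exact sub_mem (mul_mem hs2T (hj f hf)) (mul_mem (pow_mem hsO 2) (hj' f hf))
  · intro f hf
    exact hz3 f hf
  · rw [hDpow, hDf, hzX]
    field_simp
    ring
  · rw [hDpow, hDf, hzY]
    field_simp
    ring
  · intro hX
    rcases Z1I_alt L (Or.inr (by rw [os]; exact he)) hb hM (Z1I_pt hPt s) hX with h | h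
    · exact Or.inl h
    · exact Or.inr (Or.inl h)

theorem st_Z2I (hPL1 : ST_PL1) (hLOC : ST_LOC) (hID : ST_ID) (hCORR : ST_CORR)
    (hEINF : ST_EINF) (hTR : ST_TR) : ST_Z2I := by
  intro k0 k K _ _ _ _ _ _ _ _ _ _ b T W X Y d hBD hFF hPt hT hzeta p hp
  have L := hPL1 k K hFF p
  obtain ⟨-, hW, -, -, hz, ⟨hpX, hpY⟩, -⟩ :=
    hID k0 k K b T W X Y d hPt hT (hTR k0 k K b hBD T hT)
  obtain ⟨hz0, hz1, -, hz3, hz4⟩ := hCORR k0 k K b T W d hFF hPt.e1 hT p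
  obtain ⟨e, he, oT, oW, os, -, hsU, hb9⟩ := hEINF k K b T W d.δ hFF hPt.e1 hT d.δT d.δW p hp
  have hb : b 9 ≠ 0 := hBD.indep.ne_zero 9
  obtain ⟨hM, -, oQd⟩ := hb9 hb
  obtain ⟨e2, e3, i2, i3⟩ := Z1I_inv p
  have hT0 : T ≠ 0 := by rintro rfl; exact hp p.O.zero_mem
  set s := T / W with hs
  have hs0 : s ≠ 0 := div_ne_zero hT0 hW
  have hsO : s ∈ p.O := (L.mem_iff _ hs0).2 (by rw [os]; omega)
  have hQd : Qd b T ≠ 0 := by
    intro h
    rw [h, Pl.ord_zero] at oQd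
    omega
  have hg0 : gg b T W ≠ 0 := mul_ne_zero (mul_ne_zero e2 hW) hQd
  have hog : p.ord (gg b T W) = -19 * e := by
    unfold gg
    have h2 : p.ord (2 : K) = 0 := by
      have := L.ord_const 2
      rwa [map_ofNat] at this
    rw [L.ord_mul _ _ (mul_ne_zero e2 hW) hQd, L.ord_mul _ _ e2 hW, h2, oW, oQd]
    ring
  have hsg : s * gg b T W * (T ^ 9)⁻¹ ∈ p.O := by
    have hT9 : T ^ 9 ≠ 0 := pow_ne_zero 9 hT0
    rw [L.mem_iff _ (mul_ne_zero (mul_ne_zero hs0 hg0) (inv_ne_zero hT9)),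
      L.ord_mul _ _ (mul_ne_zero hs0 hg0) (inv_ne_zero hT9), L.ord_mul _ _ hs0 hg0, L.ord_inv,
      L.ord_pow, os, oT, hog]
    push_cast
    omega
  obtain ⟨h90, h9⟩ := hz4 9
  have hDs : ∀ i, d.D i s = 0 := by
    intro i
    rw [hs, Derivation.leibniz_div, d.DT, d.DW]
    simp
  -- `D_j X = T ^ j D_0 X`
  have hX9 : ∀ n (hn : n < 10), d.D ⟨n, hn⟩ X = T ^ n * d.D 0 X ∧
      d.D ⟨n, hn⟩ Y = T ^ n * d.D 0 Y := by
    intro n
    induction n with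
    | zero => intro _; simp
    | succ n ih =>
      intro hn
      obtain ⟨h1, h2⟩ := ih (by omega)
      have h3 := hz ⟨n, by omega⟩
      rw [hzeta, mul_zero, mul_zero] at h3
      obtain ⟨h3, h4⟩ := h3
      have e1 : (⟨n, by omega⟩ : Fin 9).castSucc = (⟨n, by omega⟩ : Fin 10) := rfl
      have e2 : (⟨n, by omega⟩ : Fin 9).succ = (⟨n + 1, hn⟩ : Fin 10) := rfl
      rw [e1, e2, h1] at h3
      rw [e1, e2, h2] at h4
      constructor
      · linear_combination -h3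
      · linear_combination -h4
  have hX9' : d.D 9 X = T ^ 9 * d.D 0 X := (hX9 9 (by norm_num)).1
  have hY9' : d.D 9 Y = T ^ 9 * d.D 0 Y := (hX9 9 (by norm_num)).2
  set D : Derivation ℤ K K := s • ((gg b T W * (T ^ 9)⁻¹) • (d.D 9).restrictScalars ℤ -
    d.δ.restrictScalars ℤ) with hD
  have hDf : ∀ f, D f = s * (gg b T W * (T ^ 9)⁻¹ * d.D 9 f - d.δ f) := by
    intro f
    rw [hD]
    simp [smul_eq_mul]
  set δ : Derivation ℤ K K := d.δ.restrictScalars ℤ with hδ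
  have hδf : ∀ f, δ f = d.δ f := fun f => rfl
  have hDX : D X = s * (2 * Y * psi d X Y) := by
    rw [hDf, hX9', ← hpX]
    field_simp
  have hDY : D Y = s * ((3 * X ^ 2 + 1) * psi d X Y) := by
    rw [hDf, hY9', ← hpY]
    field_simp
  have hDss : D s = -(s * d.δ s) := by
    rw [hDf, hDs]
    ring
  refine hLOC K p.O D δ
    (s - s * gg b T W * (T ^ 9)⁻¹ * (d.D 9 p.z / d.δ p.z))
    (d.δ p.z)⁻¹ (s ^ 12) (s ^ 18 * Qf b T) (-3 * d.δ s) (s⁻¹ ^ 2 * psi d X Y)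
    (s ^ 6 * X) (s ^ 9 * Y)
    e2 e3 i2 i3 ?_ hz1 (pow_mem hsO 12) ?_ ?_ ?_ ?_ (Z1I_pt hPt s) ?_ ?_ ?_
  · exact sub_mem hsO (mul_mem hsg h90)
  · have h3 := L.ge_add (L.ge_mono ((L.M_iff_ge _).1 hM) (by norm_num : (0:ℤ) ≤ 1))
      (L.ge_const (b 9))
    rw [sub_add_cancel] at h3
    exact (L.mem_iff_ge _).2 h3
  · have h3 := p.mem (-3)
    rw [map_neg, map_ofNat] at h3
    exact mul_mem h3 hsU.2.1
  · intro f hf
    rw [hDf, hδf]
    have e : s * (gg b T W * (T ^ 9)⁻¹ * d.D 9 f - d.δ f) +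
        (s - s * gg b T W * (T ^ 9)⁻¹ * (d.D 9 p.z / d.δ p.z)) * d.δ f =
        s * gg b T W * (T ^ 9)⁻¹ * (d.D 9 f - d.D 9 p.z / d.δ p.z * d.δ f) := by ring
    rw [e]
    exact mul_mem hsg (h9 f hf)
  · intro f hf
    exact hz3 f hf
  · rw [Derivation.leibniz, Derivation.leibniz_pow, hDss, hDX]
    simp only [smul_eq_mul, nsmul_eq_mul]
    field_simp
    push_cast
    ring
  · rw [Derivation.leibniz, Derivation.leibniz_pow, hDss, hDY]
    simp only [smul_eq_mul, nsmul_eq_mul]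
    field_simp
    push_cast
    ring
  · intro hX
    rcases Z1I_alt L (Or.inr (by rw [os]; exact he)) hb hM (Z1I_pt hPt s) hX with h | h
    · exact Or.inl h
    · exact Or.inr (Or.inl h)

end Pool.Agent.Helper8.SPV
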